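import Mathlib

/-!
# Identities do not determine algebras with critical reduct in an enlarged signature

Over `ℝ` consider on `ℝ²` the product `x · y = x₁ y` and the second binary operation
`x ⋆ y = (c x₂ y₂, 0)`, for `c = 1` and for `c = -1`. The two algebras have the same reduct
`(ℝ², ·)`, which is critical, and the same identities, but they are not isomorphic.
-/

namespace Pool.Agent.Results.MP_3dda3d_al.RealForms

/-- The structure of an `Ω`-algebra on the `k`-module `A`: every symbol of `Ω n` acts as a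
`k`-multilinear map `A^n → A`. -/
abbrev Ops (k : Type) [CommRing k] (Ω : ℕ → Type) (A : Type) [AddCommGroup A] [Module k A] :=
  ∀ n : ℕ, Ω n → MultilinearMap k (fun _ : Fin n => A) A

/-- Formal `Ω`-monomials in the variables `x₀, x₁, x₂, …`. -/
inductive Mon (Ω : ℕ → Type) : Type
  | var : ℕ → Mon Ω
  | op : (n : ℕ) → Ω n → (Fin n → Mon Ω) → Mon Ω

section Defs

variable {k : Type} [CommRing k] {Ω : ℕ → Type} {A : Type} [AddCommGroup A] [Module k A]
variable {B : Type} [AddCommGroup B] [Module k B]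

/-- The value of a monomial under a substitution. -/
def Mon.eval (F : Ops k Ω A) (v : ℕ → A) : Mon Ω → A
  | .var i => v i
  | .op n w t => F n w (fun j => (t j).eval F v)

/-- The value of an element of the free `Ω`-algebra (the free `k`-module on the monomials) under
a substitution. -/
noncomputable def evalPoly (F : Ops k Ω A) (v : ℕ → A) (f : Mon Ω →₀ k) : A :=
  f.sum fun m c => c • m.eval F v

/-- The set `Id(A)` of the identities of the `Ω`-algebra `A`. -/
def Id (F : Ops k Ω A) : Set (Mon Ω →₀ k) :=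
  {f | ∀ v : ℕ → A, evalPoly F v f = 0}

/-- Subalgebras: submodules closed under all operations. -/
def IsSubalgebra (F : Ops k Ω A) (R : Submodule k A) : Prop :=
  ∀ (n : ℕ) (w : Ω n) (a : Fin n → A), (∀ j, a j ∈ R) → F n w a ∈ R

/-- `I` is an ideal of the subalgebra `R`. -/
def IsIdealOf (F : Ops k Ω A) (R I : Submodule k A) : Prop :=
  I ≤ R ∧ ∀ (n : ℕ) (w : Ω n) (a : Fin n → A), (∀ j, a j ∈ R) → (∃ j, a j ∈ I) → F n w a ∈ I

/-- The identities of the section `R / I` of `A`: the elements of the free algebra whose value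
under every substitution of elements of `R` vanishes modulo `I`. -/
def IdSection (F : Ops k Ω A) (R I : Submodule k A) : Set (Mon Ω →₀ k) :=
  {f | ∀ v : ℕ → A, (∀ i, v i ∈ R) → evalPoly F v f ∈ I}

/-- `A` is critical: it does not lie in the variety generated by its proper sections, i.e. some
identity common to all proper sections `R / I` fails in `A`. -/
def IsCritical (F : Ops k Ω A) : Prop :=
  ∃ f : Mon Ω →₀ k, (∀ R I : Submodule k A, IsSubalgebra F R → IsIdealOf F R I →
    ¬ (R = ⊤ ∧ I = ⊥) → f ∈ IdSection F R I) ∧ f ∉ Id F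

/-- Isomorphism of `Ω`-algebras. -/
def AreIso (F : Ops k Ω A) (G : Ops k Ω B) : Prop :=
  ∃ e : A ≃ₗ[k] B, ∀ (n : ℕ) (w : Ω n) (a : Fin n → A), e (F n w a) = G n w (fun j => e (a j))

/-- The `Ω`-algebra obtained from an `Ω'`-algebra along an inclusion `Ω ⊆ Ω'` of signatures. -/
def reduct {Ω' : ℕ → Type} (i : ∀ n, Ω n → Ω' n) (F : Ops k Ω' A) : Ops k Ω A :=
  fun n w => F n (i n w)

end Defs

/-- signature with one binary operation -/
inductive Sig1 : ℕ → Type
  | mul : Sig1 2

/-- signature with two binary operations -/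
inductive Sig2 : ℕ → Type
  | mul : Sig2 2
  | star : Sig2 2

/-- the inclusion of the signatures -/
def inc : ∀ n, Sig1 n → Sig2 n
  | _, .mul => .mul

/-- `x · y = x₁ y` -/
noncomputable def mulOp : MultilinearMap ℝ (fun _ : Fin 2 => ℝ × ℝ) (ℝ × ℝ) where
  toFun a := (a 0).1 • a 1
  map_update_add' := by
    intro _ m i x y
    fin_cases i
    · simp [add_smul]
    · simp [smul_add]
  map_update_smul' := by
    intro _ m i c x
    fin_cases i
    · simp [mul_smul]
    · simp [smul_comm c]

/-- `x ⋆ y = (c x₂ y₂, 0)` -/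
noncomputable def starOp (c : ℝ) : MultilinearMap ℝ (fun _ : Fin 2 => ℝ × ℝ) (ℝ × ℝ) where
  toFun a := (c * (a 0).2 * (a 1).2, 0)
  map_update_add' := by
    intro _ m i x y
    fin_cases i
    · simp; ring
    · simp; ring
  map_update_smul' := by
    intro _ m i c x
    fin_cases i
    · simp; ring
    · simp; ring

/-- the algebra with parameter `c` -/
noncomputable def F (c : ℝ) : Ops ℝ Sig2 (ℝ × ℝ)
  | _, .mul => mulOp
  | _, .star => starOp c

theorem F_mul (c : ℝ) (a : Fin 2 → ℝ × ℝ) : F c 2 .mul a = (a 0).1 • a 1 := rfl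

theorem F_star (c : ℝ) (a : Fin 2 → ℝ × ℝ) : F c 2 .star a = (c * (a 0).2 * (a 1).2, 0) := rfl

/-- the commutator polynomial -/
noncomputable def comm : Mon Sig1 →₀ ℝ :=
  Finsupp.single (.op 2 .mul ![.var 0, .var 1]) 1 - Finsupp.single (.op 2 .mul ![.var 1, .var 0]) 1

theorem evalPoly_sub {k : Type} [CommRing k] {Ω : ℕ → Type} {A : Type} [AddCommGroup A]
    [Module k A] (G : Ops k Ω A) (v : ℕ → A) (f g : Mon Ω →₀ k) :
    evalPoly G v (f - g) = evalPoly G v f - evalPoly G v g := by
  unfold evalPoly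
  rw [Finsupp.sum_sub_index]
  intro m a b
  rw [sub_smul]

theorem evalPoly_single {k : Type} [CommRing k] {Ω : ℕ → Type} {A : Type} [AddCommGroup A]
    [Module k A] (G : Ops k Ω A) (v : ℕ → A) (m : Mon Ω) (c : k) :
    evalPoly G v (Finsupp.single m c) = c • m.eval G v := by
  unfold evalPoly
  rw [Finsupp.sum_single_index]
  rw [zero_smul]

theorem eval_comm (c : ℝ) (v : ℕ → ℝ × ℝ) :
    evalPoly (reduct inc (F c)) v comm = (0, (v 0).1 * (v 1).2 - (v 1).1 * (v 0).2) := by
  rw [comm, evalPoly_sub, evalPoly_single, evalPoly_single]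
  change (1 : ℝ) • ((v 0).1 • v 1) - (1 : ℝ) • ((v 1).1 • v 0) = _
  ext
  · simp; ring
  · simp

theorem critical (c : ℝ) : IsCritical (reduct inc (F c)) := by
  refine ⟨comm, ?_, ?_⟩
  · intro R I hR hI hprop v hv
    rw [eval_comm]
    by_cases hdet : (v 0).1 * (v 1).2 - (v 1).1 * (v 0).2 = 0
    · rw [hdet]; exact I.zero_mem
    -- then `R` is everything
    have hRtop : R = ⊤ := by
      rw [eq_top_iff]
      intro z _
      set d := (v 0).1 * (v 1).2 - (v 1).1 * (v 0).2 with hd
      have hz : z = ((z.1 * (v 1).2 - z.2 * (v 1).1) / d) • v 0 +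
          ((z.2 * (v 0).1 - z.1 * (v 0).2) / d) • v 1 := by
        ext
        · simp; field_simp; rw [hd]; ring
        · simp; field_simp; rw [hd]; ring
      rw [hz]
      exact R.add_mem (R.smul_mem _ (hv 0)) (R.smul_mem _ (hv 1))
    have hIbot : I ≠ ⊥ := fun h => hprop ⟨hRtop, h⟩
    obtain ⟨z, hzI, hz0⟩ := I.ne_bot_iff.1 hIbot
    -- `(0, 1) ∈ I`
    have he : ((0 : ℝ), (1 : ℝ)) ∈ I := by
      by_cases hz1 : z.1 = 0
      · have hz2 : z.2 ≠ 0 := by
          intro h; apply hz0; ext <;> simp [hz1, h]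
        have : ((0 : ℝ), (1 : ℝ)) = (z.2)⁻¹ • z := by
          ext
          · simp [hz1]
          · simp [hz2]
        rw [this]; exact I.smul_mem _ hzI
      · have h1 := hI.2 2 .mul ![z, ((0 : ℝ), (1 : ℝ))]
          (by intro j; rw [hRtop]; trivial) ⟨0, hzI⟩
        have h2 : (reduct inc (F c)) 2 .mul ![z, ((0 : ℝ), (1 : ℝ))] = (0, z.1) := by
          change z.1 • ((0 : ℝ), (1 : ℝ)) = _
          ext <;> simp
        rw [h2] at h1
        have : ((0 : ℝ), (1 : ℝ)) = (z.1)⁻¹ • ((0 : ℝ), z.1) := by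
          ext
          · simp
          · simp [hz1]
        rw [this]; exact I.smul_mem _ h1
    have : ((0 : ℝ), (v 0).1 * (v 1).2 - (v 1).1 * (v 0).2) =
        ((v 0).1 * (v 1).2 - (v 1).1 * (v 0).2) • ((0 : ℝ), (1 : ℝ)) := by
      ext <;> simp
    rw [this]; exact I.smul_mem _ he
  · intro h
    have := h (fun i => if i = 0 then (1, 0) else (0, 1))
    rw [eval_comm] at this
    have := congrArg Prod.snd this
    simp at this

/-- Evaluation depends polynomially on the parameter. -/
theorem eval_polynomial (m : Mon Sig2) (v : ℕ → ℝ × ℝ) :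
    ∃ p q : Polynomial ℝ, ∀ c : ℝ, m.eval (F c) v = (p.eval c, q.eval c) := by
  induction m with
  | var i => exact ⟨Polynomial.C (v i).1, Polynomial.C (v i).2, fun c => by simp [Mon.eval]⟩
  | op n w t ih =>
    choose P Q h using ih
    cases w with
    | mul =>
      refine ⟨P 0 * P 1, P 0 * Q 1, fun c => ?_⟩
      have : Mon.eval (F c) v (.op 2 .mul t) =
          ((t 0).eval (F c) v).1 • (t 1).eval (F c) v := rfl
      rw [this, h 0 c, h 1 c]
      ext <;> simp
    | star =>
      refine ⟨Polynomial.X * Q 0 * Q 1, 0, fun c => ?_⟩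
      have : Mon.eval (F c) v (.op 2 .star t) =
          (c * ((t 0).eval (F c) v).2 * ((t 1).eval (F c) v).2, 0) := rfl
      rw [this, h 0 c, h 1 c]
      ext <;> simp

theorem evalPoly_polynomial (f : Mon Sig2 →₀ ℝ) (v : ℕ → ℝ × ℝ) :
    ∃ p q : Polynomial ℝ, ∀ c : ℝ, evalPoly (F c) v f = (p.eval c, q.eval c) := by
  choose P Q h using fun m => eval_polynomial m v
  refine ⟨f.sum fun m a => Polynomial.C a * P m, f.sum fun m a => Polynomial.C a * Q m,
    fun c => ?_⟩
  unfold evalPoly
  rw [Finsupp.sum, Finsupp.sum, Finsupp.sum, Polynomial.eval_finsetSum,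
    Polynomial.eval_finsetSum]
  ext
  · rw [Prod.fst_sum]
    apply Finset.sum_congr rfl
    intro m _
    rw [h m c]; simp
  · rw [Prod.snd_sum]
    apply Finset.sum_congr rfl
    intro m _
    rw [h m c]; simp

/-- Scaling of the second coordinate. -/
theorem eval_scale (c s : ℝ) (m : Mon Sig2) (v : ℕ → ℝ × ℝ) :
    m.eval (F (c * s ^ 2)) v =
      (((m.eval (F c) (fun i => ((v i).1, s * (v i).2))).1,
        (m.eval (F (c * s ^ 2)) v).2)) ∧
      (m.eval (F c) (fun i => ((v i).1, s * (v i).2))).2 = s * (m.eval (F (c * s ^ 2)) v).2 := by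
  induction m with
  | var i => exact ⟨rfl, rfl⟩
  | op n w t ih =>
    cases w with
    | mul =>
      have e1 : ∀ c v, Mon.eval (F c) v (.op 2 .mul t) =
          ((t 0).eval (F c) v).1 • (t 1).eval (F c) v := fun _ _ => rfl
      rw [e1, e1]
      have h0 := congrArg Prod.fst (ih 0).1
      have h1 := congrArg Prod.fst (ih 1).1
      simp only at h0 h1
      constructor
      · ext
        · simp only [Prod.smul_fst, smul_eq_mul]
          rw [h0, h1]
        · simp only
      · simp only [Prod.smul_snd, smul_eq_mul]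
        rw [(ih 1).2, h0]; ring
    | star =>
      have e1 : ∀ c v, Mon.eval (F c) v (.op 2 .star t) =
          (c * ((t 0).eval (F c) v).2 * ((t 1).eval (F c) v).2, 0) := fun _ _ => rfl
      rw [e1, e1]
      constructor
      · ext
        · simp only
          rw [(ih 0).2, (ih 1).2]; ring
        · simp only
      · simp only
        ring

theorem evalPoly_scale {f : Mon Sig2 →₀ ℝ} {c s : ℝ} (hs : s ≠ 0) (hf : f ∈ Id (F c)) :
    f ∈ Id (F (c * s ^ 2)) := by
  intro v
  have h := hf (fun i => ((v i).1, s * (v i).2))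
  unfold evalPoly at h ⊢
  rw [Finsupp.sum] at h ⊢
  have h1 := congrArg Prod.fst h
  have h2 := congrArg Prod.snd h
  rw [Prod.fst_sum] at h1
  rw [Prod.snd_sum] at h2
  ext
  · rw [Prod.fst_sum]
    simp only [Prod.smul_fst, Prod.fst_zero] at h1 ⊢
    rw [← h1]
    apply Finset.sum_congr rfl
    intro m _
    rw [congrArg Prod.fst (eval_scale c s m v).1]
  · rw [Prod.snd_sum]
    simp only [Prod.smul_snd, Prod.snd_zero] at h2 ⊢
    have h3 : s * ∑ m ∈ f.support, f m • (m.eval (F (c * s ^ 2)) v).2 = 0 := by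
      rw [← h2, Finset.mul_sum]
      apply Finset.sum_congr rfl
      intro m _
      rw [(eval_scale c s m v).2]
      simp only [smul_eq_mul]; ring
    rcases mul_eq_zero.1 h3 with h4 | h4
    · exact absurd h4 hs
    · exact h4

theorem id_subset {c : ℝ} (hc : c ≠ 0) (c' : ℝ) : Id (F c) ⊆ Id (F c') := by
  intro f hf v
  obtain ⟨p, q, hpq⟩ := evalPoly_polynomial f v
  have hinf : Set.Infinite ((fun s : ℝ => c * s ^ 2) '' Set.Ioi 0) := by
    apply Set.Infinite.image
    · intro s hs t ht hst
      simp only [Set.mem_Ioi] at hs ht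
      have := mul_left_cancel₀ hc hst
      exact (pow_left_inj₀ hs.le ht.le (by norm_num)).1 this
    · exact Set.Ioi_infinite 0
  have hroot : ∀ x ∈ (fun s : ℝ => c * s ^ 2) '' Set.Ioi 0, p.eval x = 0 ∧ q.eval x = 0 := by
    rintro x ⟨s, hs, rfl⟩
    have h := evalPoly_scale (f := f) (c := c) (s := s) (ne_of_gt hs) hf v
    rw [hpq] at h
    exact ⟨congrArg Prod.fst h, congrArg Prod.snd h⟩
  have hp : p = 0 := Polynomial.eq_zero_of_infinite_isRoot p
    (hinf.mono (fun x hx => (hroot x hx).1))
  have hq : q = 0 := Polynomial.eq_zero_of_infinite_isRoot q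
    (hinf.mono (fun x hx => (hroot x hx).2))
  rw [hpq, hp, hq]; simp

theorem not_iso : ¬ AreIso (F 1) (F (-1)) := by
  rintro ⟨e, he⟩
  have h1 := he 2 .star ![(0, 1), (0, 1)]
  have h2 := he 2 .mul ![(0, 1), (0, 1)]
  have h3 := he 2 .mul ![(1, 0), (1, 0)]
  rw [F_star, F_star] at h1
  rw [F_mul, F_mul] at h2 h3
  simp only [Matrix.cons_val_zero, Matrix.cons_val_one] at h1 h2 h3
  -- first coordinate of `e (0, 1)` vanishes
  have h2' := congrArg Prod.fst h2
  have h3' := congrArg Prod.fst h3
  have h1' := congrArg Prod.fst h1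
  simp only [zero_smul, map_zero, Prod.fst_zero, Prod.smul_fst, smul_eq_mul, one_smul,
    mul_one] at h1' h2' h3'
  -- `e (1, 0) ≠ 0`
  have h4 : (e (1, 0)).1 = 0 ∨ (e (1, 0)).1 = 1 := by
    have : (e (1, 0)).1 * ((e (1, 0)).1 - 1) = 0 := by linarith
    rcases mul_eq_zero.1 this with h | h
    · left; exact h
    · right; linarith
  rcases h4 with h4 | h4
  · -- then `(1,0) (1,0) = (1,0)` gives `e (1,0) = 0`
    have h5 : e (1, 0) = 0 := by
      have := h3
      rw [h4] at this
      simpa using this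
    have : ((1 : ℝ), (0 : ℝ)) = 0 := by
      have := e.injective (h5.trans (map_zero e).symm)
      exact this
    have := congrArg Prod.fst this
    simp at this
  · rw [h4] at h1'
    nlinarith [sq_nonneg (e (0, 1)).2]

/-- There are a commutative ring `k` (namely `ℝ`), signatures `Ω ⊆ Ω'` with a binary operation in
`Ω`, and `Ω'`-algebras with isomorphic critical `Ω`-reducts and the same `Ω'`-identities that are
not isomorphic as `Ω'`-algebras. -/
theorem result :
    ∃ (k : Type) (_ : Field k) (Ω Ω' : ℕ → Type) (i : ∀ n, Ω n → Ω' n)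
      (A B : Type) (_ : AddCommGroup A) (_ : Module k A) (_ : AddCommGroup B) (_ : Module k B)
      (F : Ops k Ω' A) (G : Ops k Ω' B),
      (∀ n, Function.Injective (i n)) ∧ Nonempty (Ω 2) ∧
      AreIso (reduct i F) (reduct i G) ∧ IsCritical (reduct i F) ∧ IsCritical (reduct i G) ∧
      Id F = Id G ∧ ¬ AreIso F G := by
  refine ⟨ℝ, inferInstance, Sig1, Sig2, inc, ℝ × ℝ, ℝ × ℝ, inferInstance, inferInstance,
    inferInstance, inferInstance, F 1, F (-1), ?_, ⟨.mul⟩, ⟨LinearEquiv.refl ℝ _, ?_⟩,
    critical 1, critical (-1), ?_, not_iso⟩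
  · intro n a b _
    cases a; cases b; rfl
  · intro n w a
    cases w
    rfl
  · exact Set.Subset.antisymm (id_subset one_ne_zero _) (id_subset (by norm_num) _)

end Pool.Agent.Results.MP_3dda3d_al.RealForms
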